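import Pool.Agent.H38.Chm.Red

open Pool.Agent.H38.NP Pool.Agent.H38.Chm Pool.Agent.H36.Sig2

theorem Pool.Agent.Results.MP_292d26_lc.Hard.result :
    Sigma2Hard (lang CM) ∧ (InNP (lang CM) → ∀ A, InSigma2 A → InNP A) :=
  have h := cm_s2h.hard (Q := CM) fun _ _ => Iff.rfl
  ⟨h, fun hc A hA => inNP_of_reduces (h A hA) hc⟩
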